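import Pool.Agent.H77.EngGrp.Hom

/-!
# Torsion-free nilpotent Engel groups have bounded class
-/

set_option autoImplicit false
set_option linter.unusedSectionVars false

namespace Pool.Agent.H77.EngGrp

open scoped commutatorElement

theorem NilBound.succ {N f : ℕ} (hf : NilBound N f) : NilBound N (f + 1) := by
  intro R _ _ L h1 h2 l hl hlen
  match l, hlen with
  | x :: l, hlen =>
    rw [List.prod_cons, hf R L h1 h2 l (fun y hy => hl y (List.mem_cons_of_mem _ hy))
      (by simpa using hlen), mul_zero]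

section W

variable {R : Type*} [Ring R] [Algebra ℚ R] (V : Submodule ℚ R)

theorem W_anti {a b : ℕ} (h : a ≤ b) : W V b ≤ W V a := by
  unfold W
  refine iSup_le (fun i => ?_)
  obtain ⟨c, rfl⟩ := Nat.exists_eq_add_of_le h
  rw [add_assoc]
  exact le_iSup (fun i : ℕ => V ^ (a + i)) (c + i)

theorem mul_mem_W {a b c : ℕ} {x y : R} (hx : x ∈ W V a) (hy : y ∈ W V b) (h : c ≤ a + b) :
    x * y ∈ W V c :=
  W_anti V h (W_mul V a b (Submodule.mul_mem_mul hx hy))

end W

section U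

variable {R : Type*} [Ring R] [Algebra ℚ R] {Γ : Type*} [Group Γ] {ρ : Γ →* R} {N : ℕ}
  (hρ : ∀ x : Γ, (ρ x - 1) ^ (N + 1) = 0)

include hρ

/-- the elements acting trivially modulo the `n+1`-st term of the filtration -/
def U (n : ℕ) : Subgroup Γ where
  carrier := {g | ρ g - 1 ∈ W (lieV hρ) (n + 1)}
  one_mem' := by
    change ρ 1 - 1 ∈ W (lieV hρ) (n + 1)
    rw [map_one, sub_self]; exact Submodule.zero_mem _
  mul_mem' := by
    intro g h hg hh
    change ρ (g * h) - 1 ∈ W (lieV hρ) (n + 1)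
    have : ρ (g * h) - 1 = (ρ g - 1) * (ρ h - 1) + (ρ g - 1) + (ρ h - 1) := by
      rw [map_mul]; noncomm_ring
    rw [this]
    exact Submodule.add_mem _ (Submodule.add_mem _
      (mul_mem_W _ hg hh (by omega)) hg) hh
  inv_mem' := by
    intro g hg
    change ρ g⁻¹ - 1 ∈ W (lieV hρ) (n + 1)
    have h1 : ρ g⁻¹ * ρ g = 1 := by rw [← map_mul, inv_mul_cancel, map_one]
    have : ρ g⁻¹ - 1 = - ((ρ g⁻¹ - 1) * (ρ g - 1)) - (ρ g - 1) := by
      have h2 : (ρ g⁻¹ - 1) * (ρ g - 1) = ρ g⁻¹ * ρ g - ρ g⁻¹ - ρ g + 1 := by noncomm_ring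
      rw [h2, h1]; abel
    rw [this]
    exact Submodule.sub_mem _ (Submodule.neg_mem _
      (mul_mem_W _ (sub_one_mem_W hρ g⁻¹) hg (by omega))) hg

theorem mem_U {n : ℕ} {g : Γ} : g ∈ U hρ n ↔ ρ g - 1 ∈ W (lieV hρ) (n + 1) := Iff.rfl

theorem comm_mem_U {n : ℕ} {g : Γ} (hg : g ∈ U hρ n) (x : Γ) : ⁅g, x⁆ ∈ U hρ (n + 1) := by
  rw [mem_U] at hg ⊢
  have h1 : ρ g * ρ g⁻¹ = 1 := by rw [← map_mul, mul_inv_cancel, map_one]
  have h2 : ρ x * ρ x⁻¹ = 1 := by rw [← map_mul, mul_inv_cancel, map_one]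
  set D := (ρ g - 1) * (ρ x - 1) - (ρ x - 1) * (ρ g - 1) with hD
  have hDmem : D ∈ W (lieV hρ) (n + 1 + 1) :=
    Submodule.sub_mem _ (mul_mem_W _ hg (sub_one_mem_W hρ x) (by omega))
      (mul_mem_W _ (sub_one_mem_W hρ x) hg (by omega))
  have h3 : ρ ⁅g, x⁆ - 1 = D * (ρ (g⁻¹ * x⁻¹) - 1) + D := by
    have h4 : D = ρ g * ρ x - ρ x * ρ g := by rw [hD]; noncomm_ring
    have h5 : D * (ρ (g⁻¹ * x⁻¹) - 1) + D = D * ρ (g⁻¹ * x⁻¹) := by noncomm_ring
    rw [h5, h4, commutatorElement_def, sub_mul, ← map_mul, ← map_mul, ← map_mul, ← map_mul]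
    congr 1
    · congr 1; group
    · rw [← map_one ρ]; congr 1; group
  rw [h3]
  exact Submodule.add_mem _ (mul_mem_W _ hDmem (sub_one_mem_W hρ _) (by omega)) hDmem

theorem lcs_le_U (n : ℕ) : (⊤ : Subgroup Γ).lowerCentralSeries n ≤ U hρ n := by
  induction n with
  | zero =>
    intro g _
    rw [mem_U]
    exact sub_one_mem_W hρ g
  | succ n ih =>
    rw [Subgroup.lowerCentralSeries_succ, Subgroup.commutator_le]
    intro g hg x _
    exact comm_mem_U hρ (ih hg) x

end U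

/-- a nilpotent group has a normal abelian subgroup which contains its centraliser -/
theorem exists_maxAb (Γ : Type*) [Group Γ] [hN : Group.IsNilpotent Γ] :
    ∃ A : Subgroup Γ, A.Normal ∧ (∀ a ∈ A, ∀ b ∈ A, a * b = b * a) ∧
      ∀ c : Γ, (∀ a ∈ A, c * a = a * c) → c ∈ A := by
  obtain ⟨A, hA⟩ := zorn_le_nonempty₀ {A : Subgroup Γ | A.Normal ∧ ∀ a ∈ A, ∀ b ∈ A, a * b = b * a}
    (by
      intro 𝒞 h𝒞 hchain A₀ hA₀
      refine ⟨sSup 𝒞, ⟨?_, ?_⟩, fun z hz => le_sSup hz⟩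
      · constructor
        intro a ha g
        rw [Subgroup.mem_sSup_of_directedOn ⟨A₀, hA₀⟩ hchain.directedOn] at ha ⊢
        obtain ⟨B, hB, haB⟩ := ha
        exact ⟨B, hB, (h𝒞 hB).1.conj_mem a haB g⟩
      · intro a ha b hb
        rw [Subgroup.mem_sSup_of_directedOn ⟨A₀, hA₀⟩ hchain.directedOn] at ha hb
        obtain ⟨B, hB, haB⟩ := ha
        obtain ⟨B', hB', hbB'⟩ := hb
        rcases hchain.total hB hB' with h | h
        · exact (h𝒞 hB').2 a (h haB) b hbB'
        · exact (h𝒞 hB).2 a haB b (h hbB'))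
    ⊥ ⟨inferInstance, by
      intro a ha b hb
      rw [Subgroup.mem_bot] at ha hb
      rw [ha, hb]⟩
  obtain ⟨-, hmax⟩ := hA
  obtain ⟨⟨hAn, hAc⟩, hAmax⟩ := hmax
  refine ⟨A, hAn, hAc, ?_⟩
  by_contra hcon
  push Not at hcon
  -- minimal `i` with an element of `Z_i` centralising `A` and outside `A`
  have hex : ∃ i : ℕ, ∃ c : Γ, (∀ a ∈ A, c * a = a * c) ∧ c ∉ A ∧
      c ∈ Subgroup.upperCentralSeries Γ i := by
    obtain ⟨c, hc, hcA⟩ := hcon
    obtain ⟨n, hn⟩ := hN.nilpotent'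
    exact ⟨n, c, hc, hcA, by rw [hn]; trivial⟩
  classical
  obtain ⟨c, hc, hcA, hcZ⟩ := Nat.find_spec hex
  have hmin : ∀ m, m < Nat.find hex → ∀ d : Γ, (∀ a ∈ A, d * a = a * d) →
      d ∈ Subgroup.upperCentralSeries Γ m → d ∈ A := by
    intro m hm d hd hdZ
    by_contra hdA
    exact Nat.find_min hex hm ⟨d, hd, hdA, hdZ⟩
  rcases Nat.eq_zero_or_pos (Nat.find hex) with h0 | hpos
  · rw [h0] at hcZ
    rw [Subgroup.upperCentralSeries_zero, Subgroup.mem_bot] at hcZ
    exact hcA (hcZ ▸ A.one_mem)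
  obtain ⟨j, hj⟩ := Nat.exists_eq_succ_of_ne_zero hpos.ne'
  rw [hj] at hcZ
  have hcomm : ∀ g : Γ, ⁅c, g⁆ ∈ A := by
    intro g
    refine hmin j (by omega) _ ?_ (Subgroup.mem_upperCentralSeries_succ_iff.mp hcZ g)
    intro a ha
    -- `[c, g] = c * (g c⁻¹ g⁻¹)`, both factors centralise `A`
    have hc' : ∀ a ∈ A, c⁻¹ * a = a * c⁻¹ := by
      intro a ha
      rw [inv_mul_eq_iff_eq_mul, ← mul_assoc, hc a ha, mul_assoc, mul_inv_cancel, mul_one]
    have h1 : (g * c⁻¹ * g⁻¹) * a = a * (g * c⁻¹ * g⁻¹) := by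
      have h2 := hc' (g⁻¹ * a * g) (by simpa using hAn.conj_mem a ha g⁻¹)
      calc (g * c⁻¹ * g⁻¹) * a = g * (c⁻¹ * (g⁻¹ * a * g)) * g⁻¹ := by group
        _ = g * ((g⁻¹ * a * g) * c⁻¹) * g⁻¹ := by rw [h2]
        _ = a * (g * c⁻¹ * g⁻¹) := by group
    calc ⁅c, g⁆ * a = c * ((g * c⁻¹ * g⁻¹) * a) := by rw [commutatorElement_def]; group
      _ = c * a * (g * c⁻¹ * g⁻¹) := by rw [h1]; group
      _ = a * ⁅c, g⁆ := by rw [hc a ha, commutatorElement_def]; group
  -- the bigger subgroup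
  set B : Subgroup Γ := Subgroup.closure ((A : Set Γ) ∪ {c}) with hB
  have hAB : A ≤ B := fun a ha => Subgroup.subset_closure (Or.inl ha)
  have hcB : c ∈ B := Subgroup.subset_closure (Or.inr rfl)
  have hBn : B.Normal := by
    constructor
    intro b hb g
    induction hb using Subgroup.closure_induction with
    | mem x hx =>
      rcases hx with hx | hx
      · exact hAB (hAn.conj_mem x hx g)
      · rw [Set.mem_singleton_iff] at hx
        rw [hx]
        have h1 : g * c * g⁻¹ = (⁅c, g⁆)⁻¹ * c := by rw [commutatorElement_def]; group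
        rw [h1]
        exact B.mul_mem (B.inv_mem (hAB (hcomm g))) hcB
    | one => simp
    | mul x y _ _ hx hy =>
      have : g * (x * y) * g⁻¹ = (g * x * g⁻¹) * (g * y * g⁻¹) := by group
      rw [this]; exact B.mul_mem hx hy
    | inv x _ hx =>
      have : g * x⁻¹ * g⁻¹ = (g * x * g⁻¹)⁻¹ := by group
      rw [this]; exact B.inv_mem hx
  have hBc : ∀ a ∈ B, ∀ b ∈ B, a * b = b * a := by
    intro a ha b hb
    induction ha, hb using Subgroup.closure_induction₂ with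
    | mem x y hx hy =>
      rcases hx with hx | hx <;> rcases hy with hy | hy
      · exact hAc x hx y hy
      · rw [Set.mem_singleton_iff] at hy; rw [hy]; exact (hc x hx).symm
      · rw [Set.mem_singleton_iff] at hx; rw [hx]; exact hc y hy
      · rw [Set.mem_singleton_iff] at hx hy; rw [hx, hy]
    | one_left x _ => simp
    | one_right x _ => simp
    | mul_left x y z _ _ _ h1 h2 => rw [mul_assoc, h2, ← mul_assoc, h1, mul_assoc]
    | mul_right x y z _ _ _ h1 h2 => rw [← mul_assoc, h1, mul_assoc, h2, mul_assoc]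
    | inv_left x y _ _ h =>
      rw [inv_mul_eq_iff_eq_mul, ← mul_assoc, h, mul_assoc, mul_inv_cancel, mul_one]
    | inv_right x y _ _ h =>
      rw [eq_inv_mul_iff_mul_eq, ← mul_assoc, ← h, mul_assoc, mul_inv_cancel, mul_one]
  exact hcA (hAmax ⟨hBn, hBc⟩ hAB hcB)

/-- **Class bound.** -/
theorem class_bound {N f : ℕ} (hf : NilBound N f) (Γ : Type) [Group Γ] [Group.IsNilpotent Γ]
    (hE : Eng (N + 1) Γ) (htf : ∀ x : Γ, ∀ m : ℕ, 0 < m → x ^ m = 1 → x = 1) :
    (⊤ : Subgroup Γ).lowerCentralSeries (2 * f + 1) = ⊥ := by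
  have hf' := hf.succ
  obtain ⟨A, hAn, hAc, hAcen⟩ := exists_maxAb Γ
  letI : CommGroup A := { (inferInstance : Group A) with
    mul_comm := fun a b => Subtype.ext (hAc a a.2 b b.2) }
  have hsep : ∀ a : A, (∀ φ : Additive A →+ ℚ, φ (Additive.ofMul a) = 0) → a = 1 := by
    intro a ha
    have := sep (A := Additive A) (by
      intro a m hm h
      have h1 : (a.toMul : A) ^ m = 1 := h
      have h2 : ((a.toMul : A) : Γ) ^ m = 1 := by
        have := congrArg (Subtype.val) h1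
        simpa using this
      have h3 := htf _ m hm h2
      have h4 : a.toMul = 1 := Subtype.ext h3
      exact h4) (Additive.ofMul a) ha
    exact this
  have hρ := act_nil A hE
  -- `A ≤ Z_{f+1}`
  have hAZ : A ≤ Subgroup.upperCentralSeries Γ (f + 1) := by
    intro a ha
    rw [mem_ucs_iff]
    intro l hl
    have h1 : l.foldl (kc A) ⟨a, ha⟩ = 1 :=
      hsep _ (fun φ => hom_foldl A hf' hE φ ⟨a, ha⟩ l hl)
    have h2 := foldl_coe A ⟨a, ha⟩ l
    rw [h1] at h2
    exact h2.symm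
  -- `γ_{f+1} ≤ C(A) = A`
  have hlcs : (⊤ : Subgroup Γ).lowerCentralSeries f ≤ A := by
    intro g hg
    have h1 := lcs_le_U hρ f hg
    rw [mem_U, W_eq_bot hf' hρ, Submodule.mem_bot, sub_eq_zero] at h1
    apply hAcen
    intro a ha
    have h2 : kc A ⟨a, ha⟩ g = 1 := by
      apply hsep
      intro φ
      rw [← act_sub_one, h1, sub_self]
      rfl
    have h3 := kc_coe A ⟨a, ha⟩ g
    rw [h2] at h3
    have h4 : a⁻¹ * g⁻¹ * a * g = 1 := h3.symm
    calc g * a = g * a * (a⁻¹ * g⁻¹ * a * g) := by rw [h4, mul_one]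
      _ = a * g := by group
  -- conclusion
  have hfin : ∀ j, j ≤ f → (⊤ : Subgroup Γ).lowerCentralSeries (f - j) ≤
      Subgroup.upperCentralSeries Γ (f + 1 + j) := by
    intro j
    induction j with
    | zero => intro _; exact hlcs.trans hAZ
    | succ j ih =>
      intro hj x hx
      rw [← add_assoc, Subgroup.mem_upperCentralSeries_succ_iff]
      intro y
      apply ih (by omega)
      rw [show f - j = (f - (j + 1)) + 1 by omega, Subgroup.lowerCentralSeries_succ]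
      exact Subgroup.commutator_mem_commutator hx (Subgroup.mem_top y)
  have h5 := hfin f le_rfl
  rw [Nat.sub_self, Subgroup.lowerCentralSeries_zero, show f + 1 + f = 2 * f + 1 by ring] at h5
  rw [Subgroup.lowerCentralSeries_eq_bot_iff_upperCentralSeries_eq_top]
  exact top_le_iff.mp h5

end Pool.Agent.H77.EngGrp
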