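import Pool.Agent.H77.EngGrp.Class

/-!
# Kernels of nilpotent quotients of finitely generated Engel groups are finitely generated
-/

set_option autoImplicit false
set_option linter.unusedSectionVars false

namespace Pool.Agent.H77.EngGrp

open scoped commutatorElement Pointwise

theorem exists_mul_zpow {G : Type*} [Group G] (N : Subgroup G) (t : G)
    (ht : t ∈ Subgroup.normalizer (N : Set G)) {x : G} (hx : x ∈ N ⊔ Subgroup.zpowers t) :
    ∃ n ∈ N, ∃ a : ℤ, x = n * t ^ a := by
  have h1 := Subgroup.coe_mul_of_right_le_normalizer_left N (Subgroup.zpowers t)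
    (by rw [Subgroup.zpowers_le]; exact ht)
  have h2 : x ∈ (N : Set G) * (Subgroup.zpowers t : Set G) := by
    rw [← h1]; exact hx
  obtain ⟨n, hn, y, hy, rfl⟩ := Set.mem_mul.mp h2
  obtain ⟨a, rfl⟩ := Subgroup.mem_zpowers_iff.mp hy
  exact ⟨n, hn, a, rfl⟩

theorem inf_zpowers_fg {G : Type*} [Group G] (N : Subgroup G) (t : G) :
    (N ⊓ Subgroup.zpowers t).FG := by
  have h1 : (N.comap (zpowersHom G t)).map (zpowersHom G t) = N ⊓ Subgroup.zpowers t := by
    rw [Subgroup.map_comap_eq, inf_comm]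
    congr 1
  have : IsCyclic (N.comap (zpowersHom G t)) := inferInstance
  obtain ⟨g, hg⟩ := IsCyclic.exists_generator (α := N.comap (zpowersHom G t))
  have h2 : N.comap (zpowersHom G t) = Subgroup.zpowers (g : Multiplicative ℤ) := by
    apply le_antisymm
    · intro x hx
      obtain ⟨n, hn⟩ := Subgroup.mem_zpowers_iff.mp (hg ⟨x, hx⟩)
      refine Subgroup.mem_zpowers_iff.mpr ⟨n, ?_⟩
      have := congrArg Subtype.val hn
      simpa using this
    · rw [Subgroup.zpowers_le]; exact g.2
  rw [← h1, h2, MonoidHom.map_zpowers, Subgroup.fg_iff]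
  exact ⟨{zpowersHom G t g}, by rw [Subgroup.zpowers_eq_closure], Set.finite_singleton _⟩

theorem fg_cyclic {G : Type*} [Group G] {k : ℕ} (hE : Eng k G) (K N : Subgroup G) (hK : K.FG)
    (hNK : N ≤ K) (t : G) (htN : t ∈ Subgroup.normalizer (N : Set G))
    (ht : K ≤ N ⊔ Subgroup.zpowers t) : N.FG := by
  obtain ⟨S, hS, hSfin⟩ := (Subgroup.fg_iff K).mp hK
  have hSex : ∀ s : G, ∃ n : G, n ∈ N ∧ (s ∈ S → ∃ a : ℤ, s = n * t ^ a) := by
    intro s
    by_cases hs : s ∈ S
    · have : s ∈ K := hS ▸ Subgroup.subset_closure hs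
      obtain ⟨n, hn, a, ha⟩ := exists_mul_zpow N t htN (ht this)
      exact ⟨n, hn, fun _ => ⟨a, ha⟩⟩
    · exact ⟨1, N.one_mem, fun h => absurd h hs⟩
  choose g hgN hg using hSex
  let c : G → ℕ → G := fun n j => (fun z : G => z⁻¹ * t⁻¹ * z * t)^[j] n
  have hc0 : ∀ n, c n 0 = n := fun n => rfl
  have hcs : ∀ n j, c n (j + 1) = (c n j)⁻¹ * t⁻¹ * (c n j) * t := by
    intro n j
    simp only [c, Function.iterate_succ_apply']
  have hck : ∀ n, c n k = 1 := fun n => hE n t
  let T : Set G := (fun p : G × ℕ => c (g p.1) p.2) '' (S ×ˢ Set.Iic k)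
  have hTfin : T.Finite := (hSfin.prod (Set.finite_Iic k)).image _
  set M := Subgroup.closure T with hM
  have hMfg : M.FG := (Subgroup.fg_iff M).mpr ⟨T, rfl, hTfin⟩
  have hcM : ∀ s ∈ S, ∀ j ≤ k, c (g s) j ∈ M := by
    intro s hs j hj
    exact Subgroup.subset_closure ⟨(s, j), ⟨hs, hj⟩, rfl⟩
  have htN' : ∀ n, n ∈ N ↔ t⁻¹ * n * t ∈ N := by
    intro n
    exact Subgroup.mem_normalizer_iff''.mp htN n
  have hcN : ∀ n ∈ N, ∀ j, c n j ∈ N := by
    intro n hn j
    induction j with
    | zero => exact hn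
    | succ j ih =>
      rw [hcs]
      have : (c n j)⁻¹ * t⁻¹ * c n j * t = (c n j)⁻¹ * (t⁻¹ * c n j * t) := by group
      rw [this]
      exact N.mul_mem (N.inv_mem ih) ((htN' _).mp ih)
  have hMN : M ≤ N := by
    rw [hM, Subgroup.closure_le]
    rintro _ ⟨⟨s, j⟩, ⟨hs, hj⟩, rfl⟩
    exact hcN _ (hgN s) j
  -- `M` is normalised by `t`
  have hdown : ∀ m ∈ M, t⁻¹ * m * t ∈ M := by
    intro m hm
    induction hm using Subgroup.closure_induction with
    | mem x hx =>
      obtain ⟨⟨s, j⟩, ⟨hs, hj⟩, rfl⟩ := hx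
      change t⁻¹ * c (g s) j * t ∈ M
      have h1 : t⁻¹ * c (g s) j * t = c (g s) j * c (g s) (j + 1) := by
        rw [hcs]; group
      rw [h1]
      rcases Nat.lt_or_ge j k with hjk | hjk
      · exact M.mul_mem (hcM s hs j hj) (hcM s hs (j + 1) hjk)
      · have hjk' : j = k := le_antisymm hj hjk
        have h2 : c (g s) (j + 1) = 1 := by rw [hcs, hjk', hck]; simp
        rw [h2, mul_one]
        exact hcM s hs j hj
    | one => simp
    | mul x y _ _ hx hy =>
      have : t⁻¹ * (x * y) * t = (t⁻¹ * x * t) * (t⁻¹ * y * t) := by group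
      rw [this]; exact M.mul_mem hx hy
    | inv x _ hx =>
      have : t⁻¹ * x⁻¹ * t = (t⁻¹ * x * t)⁻¹ := by group
      rw [this]; exact M.inv_mem hx
  have hupc : ∀ s ∈ S, ∀ i j, j + i = k → t * c (g s) j * t⁻¹ ∈ M := by
    intro s hs i
    induction i with
    | zero =>
      intro j hj
      rw [add_zero] at hj
      rw [hj, hck]; simp
    | succ i ih =>
      intro j hj
      have h1 : t * c (g s) j * t⁻¹ = c (g s) j * (t * c (g s) (j + 1) * t⁻¹)⁻¹ := by
        rw [hcs]; group
      rw [h1]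
      exact M.mul_mem (hcM s hs j (by omega)) (M.inv_mem (ih (j + 1) (by omega)))
  have hup : ∀ m ∈ M, t * m * t⁻¹ ∈ M := by
    intro m hm
    induction hm using Subgroup.closure_induction with
    | mem x hx =>
      obtain ⟨⟨s, j⟩, ⟨hs, hj⟩, rfl⟩ := hx
      exact hupc s hs (k - j) j (Nat.add_sub_cancel' hj)
    | one => simp
    | mul x y _ _ hx hy =>
      have : t * (x * y) * t⁻¹ = (t * x * t⁻¹) * (t * y * t⁻¹) := by group
      rw [this]; exact M.mul_mem hx hy
    | inv x _ hx =>
      have : t * x⁻¹ * t⁻¹ = (t * x * t⁻¹)⁻¹ := by group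
      rw [this]; exact M.inv_mem hx
  have htM : t ∈ Subgroup.normalizer (M : Set G) := by
    rw [Subgroup.mem_normalizer_iff]
    intro m
    constructor
    · exact hup m
    · intro h
      have := hdown _ h
      have h2 : t⁻¹ * (t * m * t⁻¹) * t = m := by group
      rwa [h2] at this
  have hKM : K ≤ M ⊔ Subgroup.zpowers t := by
    rw [← hS, Subgroup.closure_le]
    intro s hs
    obtain ⟨a, ha⟩ := hg s hs
    rw [SetLike.mem_coe, ha]
    exact Subgroup.mul_mem_sup (hcM s hs 0 (Nat.zero_le _)) (Subgroup.zpow_mem_zpowers t a)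
  have hfin : N = M ⊔ (N ⊓ Subgroup.zpowers t) := by
    apply le_antisymm
    · intro n hn
      obtain ⟨m, hm, a, ha⟩ := exists_mul_zpow M t htM (hKM (hNK hn))
      have h1 : t ^ a ∈ N := by
        have : t ^ a = m⁻¹ * n := by rw [ha]; group
        rw [this]; exact N.mul_mem (N.inv_mem (hMN hm)) hn
      rw [ha]
      exact Subgroup.mul_mem_sup hm ⟨h1, Subgroup.zpow_mem_zpowers t a⟩
    · exact sup_le hMN inf_le_left
  rw [hfin]
  exact hMfg.sup (inf_zpowers_fg N t)

theorem fg_ab_aux {G : Type*} [Group G] {k : ℕ} (hE : Eng k G) (T : Finset G) :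
    ∀ (K N : Subgroup G), K.FG → N ≤ K → ⁅K, K⁆ ≤ N → (T : Set G) ⊆ K →
      K ≤ N ⊔ Subgroup.closure (T : Set G) → N.FG := by
  classical
  induction T using Finset.induction_on with
  | empty =>
    intro K N hK hNK _ _ h
    rw [Finset.coe_empty, Subgroup.closure_empty, sup_bot_eq] at h
    rwa [le_antisymm hNK h]
  | insert t T _ ih =>
    intro K N hK hNK hcomm hT h
    rw [Finset.coe_insert] at hT h
    have htK : t ∈ K := hT (Set.mem_insert _ _)
    have hTK : (T : Set G) ⊆ K := fun x hx => hT (Set.mem_insert_of_mem _ hx)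
    set N1 := N ⊔ Subgroup.closure (T : Set G) with hN1
    have hN1K : N1 ≤ K := sup_le hNK ((Subgroup.closure_le K).mpr hTK)
    have hnorm : ∀ x ∈ K, ∀ n ∈ N1, x * n * x⁻¹ ∈ N1 := by
      intro x hx n hn
      have h1 : x * n * x⁻¹ = ⁅x, n⁆ * n := by rw [commutatorElement_def]; group
      rw [h1]
      exact N1.mul_mem ((le_sup_left : N ≤ N1)
        (hcomm (Subgroup.commutator_mem_commutator hx (hN1K hn)))) hn
    have htN1 : t ∈ Subgroup.normalizer (N1 : Set G) := by
      rw [Subgroup.mem_normalizer_iff]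
      intro n
      constructor
      · exact hnorm t htK n
      · intro hn
        have := hnorm t⁻¹ (K.inv_mem htK) _ hn
        have h2 : t⁻¹ * (t * n * t⁻¹) * t⁻¹⁻¹ = n := by group
        rwa [h2] at this
    have hN1fg : N1.FG := by
      refine fg_cyclic hE K N1 hK hN1K t htN1 (h.trans ?_)
      rw [← Set.union_singleton, Subgroup.closure_union, ← sup_assoc, ← hN1,
        Subgroup.zpowers_eq_closure]
    exact ih N1 N hN1fg le_sup_left ((Subgroup.commutator_mono hN1K hN1K).trans hcomm)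
      (Subgroup.subset_closure.trans (SetLike.coe_subset_coe.mpr le_sup_right)) le_rfl

theorem fg_ab {G : Type*} [Group G] {k : ℕ} (hE : Eng k G) (K N : Subgroup G) (hK : K.FG)
    (hNK : N ≤ K) (hcomm : ⁅K, K⁆ ≤ N) : N.FG := by
  obtain ⟨T, hT⟩ := hK
  refine fg_ab_aux hE T K N ⟨T, hT⟩ hNK hcomm ?_ ?_
  · rw [← hT]; exact Subgroup.subset_closure
  · rw [← hT]; exact le_sup_right

/-- the kernel of a nilpotent quotient of a finitely generated Engel group is finitely generated -/
theorem fg_of_nilp_quot {G : Type*} [Group G] {k : ℕ} (hE : Eng k G) (hG : (⊤ : Subgroup G).FG)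
    (N : Subgroup G) [N.Normal] (c : ℕ)
    (hc : (⊤ : Subgroup (G ⧸ N)).lowerCentralSeries c = ⊥) : N.FG := by
  have key : ∀ i, (((⊤ : Subgroup (G ⧸ N)).lowerCentralSeries i).comap
      (QuotientGroup.mk' N)).FG := by
    intro i
    induction i with
    | zero =>
      rw [Subgroup.lowerCentralSeries_zero, Subgroup.comap_top]
      exact hG
    | succ i ih =>
      refine fg_ab hE _ _ ih (Subgroup.comap_mono
        ((⊤ : Subgroup (G ⧸ N)).lowerCentralSeries_antitone (Nat.le_succ i))) ?_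
      rw [Subgroup.commutator_le]
      intro x hx y _
      rw [Subgroup.mem_comap] at hx ⊢
      rw [Subgroup.lowerCentralSeries_succ, map_commutatorElement]
      exact Subgroup.commutator_mem_commutator hx (Subgroup.mem_top _)
  have := key c
  rw [hc] at this
  have h2 : (⊥ : Subgroup (G ⧸ N)).comap (QuotientGroup.mk' N) = N := QuotientGroup.ker_mk' N
  rwa [h2] at this

end Pool.Agent.H77.EngGrp
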