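import Pool.Agent.H77.EngGrp.Fg

/-!
# Finitely generated locally indicable Engel groups are nilpotent of bounded class
-/

set_option autoImplicit false
set_option linter.unusedSectionVars false

namespace Pool.Agent.H77.EngGrp

open scoped commutatorElement

theorem eng_map {G H : Type*} [Group G] [Group H] (π : G →* H) (x y : G) (k : ℕ) :
    (fun z : H => z⁻¹ * (π y)⁻¹ * z * (π y))^[k] (π x) =
      π ((fun z : G => z⁻¹ * y⁻¹ * z * y)^[k] x) := by
  induction k generalizing x with
  | zero => rfl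
  | succ k ih =>
    rw [Function.iterate_succ_apply, Function.iterate_succ_apply, ← ih]
    simp only [map_mul, map_inv]

theorem Eng.quot {G : Type*} [Group G] {k : ℕ} (hE : Eng k G) (N : Subgroup G) [N.Normal] :
    Eng k (G ⧸ N) := by
  intro x y
  obtain ⟨x, rfl⟩ := QuotientGroup.mk'_surjective N x
  obtain ⟨y, rfl⟩ := QuotientGroup.mk'_surjective N y
  rw [eng_map, hE, map_one]

theorem Eng.sub {G : Type*} [Group G] {k : ℕ} (hE : Eng k G) (K : Subgroup G) : Eng k K := by
  intro x y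
  apply K.subtype_injective
  rw [← eng_map K.subtype x y k, hE]
  simp

theorem foldl_map {G H : Type*} [Group G] [Group H] (π : G →* H) (l : List G) (x : G) :
    (l.map π).foldl cm (π x) = π (l.foldl cm x) := by
  induction l generalizing x with
  | nil => rfl
  | cons y l ih =>
    rw [List.map_cons, List.foldl_cons, List.foldl_cons, ← ih]
    congr 1
    simp only [cm, map_mul, map_inv]

theorem ucs_top_of_lcs_le {Γ : Type*} [Group Γ] {a b : ℕ}
    (h : (⊤ : Subgroup Γ).lowerCentralSeries a ≤ Subgroup.upperCentralSeries Γ b) :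
    Subgroup.upperCentralSeries Γ (b + a) = ⊤ := by
  have hfin : ∀ j, j ≤ a → (⊤ : Subgroup Γ).lowerCentralSeries (a - j) ≤
      Subgroup.upperCentralSeries Γ (b + j) := by
    intro j
    induction j with
    | zero => intro _; exact h
    | succ j ih =>
      intro hj x hx
      rw [← add_assoc, Subgroup.mem_upperCentralSeries_succ_iff]
      intro y
      apply ih (by omega)
      rw [show a - j = (a - (j + 1)) + 1 by omega, Subgroup.lowerCentralSeries_succ]
      exact Subgroup.commutator_mem_commutator hx (Subgroup.mem_top y)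
  have h5 := hfin a le_rfl
  rw [Nat.sub_self, Subgroup.lowerCentralSeries_zero] at h5
  exact top_le_iff.mp h5

theorem lcs_quot {G : Type*} [Group G] (N : Subgroup G) [N.Normal] (c : ℕ) :
    (⊤ : Subgroup (G ⧸ N)).lowerCentralSeries c =
      ((⊤ : Subgroup G).lowerCentralSeries c).map (QuotientGroup.mk' N) := by
  rw [Subgroup.map_lowerCentralSeries, Subgroup.map_top_of_surjective _
    (QuotientGroup.mk'_surjective N)]

/-- every nontrivial finitely generated subgroup has a nontrivial rational character -/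
def LI (H : Type*) [Group H] : Prop :=
  ∀ K : Subgroup H, K.FG → K ≠ ⊥ → ∃ φ : Additive K →+ ℚ, φ ≠ 0

theorem lcs_bot_of_LI {N f : ℕ} (hf : NilBound N f) (H : Type) [Group H]
    (hfg : (⊤ : Subgroup H).FG) (hE : Eng (N + 1) H) (hLI : LI H) :
    (⊤ : Subgroup H).lowerCentralSeries (2 * f + 1) = ⊥ := by
  set n0 := 2 * f + 1 with hn0
  -- the normal subgroups with torsion-free nilpotent quotient of class at most `n0`
  set 𝒩 : Set (Subgroup H) := {M | M.Normal ∧ (∀ x : H, ∀ m : ℕ, 0 < m → x ^ m ∈ M → x ∈ M) ∧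
    (⊤ : Subgroup H).lowerCentralSeries n0 ≤ M} with h𝒩
  -- any torsion-free nilpotent quotient has class at most `n0`
  have hclass : ∀ M : Subgroup H, M.Normal → (∀ x : H, ∀ m : ℕ, 0 < m → x ^ m ∈ M → x ∈ M) →
      (∃ c, (⊤ : Subgroup H).lowerCentralSeries c ≤ M) → M ∈ 𝒩 := by
    intro M hMn hMt hMc
    refine ⟨hMn, hMt, ?_⟩
    obtain ⟨c, hc⟩ := hMc
    have hq : (⊤ : Subgroup (H ⧸ M)).lowerCentralSeries c = ⊥ := by
      rw [lcs_quot, Subgroup.map_eq_bot_iff, QuotientGroup.ker_mk']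
      exact hc
    have hnil : Group.IsNilpotent (H ⧸ M) := Subgroup.nilpotent_iff_lowerCentralSeries.mpr ⟨c, hq⟩
    have h1 := class_bound hf (H ⧸ M) (hE.quot M) (by
      intro x m hm hx
      obtain ⟨x, rfl⟩ := QuotientGroup.mk'_surjective M x
      rw [← map_pow, QuotientGroup.mk'_apply, QuotientGroup.eq_one_iff] at hx
      rw [QuotientGroup.mk'_apply, QuotientGroup.eq_one_iff]
      exact hMt x m hm hx)
    rw [lcs_quot, Subgroup.map_eq_bot_iff, QuotientGroup.ker_mk'] at h1
    exact h1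
  have hR : sInf 𝒩 ∈ 𝒩 := by
    refine ⟨⟨?_⟩, ?_, ?_⟩
    · intro n hn g
      rw [Subgroup.mem_sInf] at hn ⊢
      intro M hM
      exact hM.1.conj_mem n (hn M hM) g
    · intro x m hm hx
      rw [Subgroup.mem_sInf] at hx ⊢
      intro M hM
      exact hM.2.1 x m hm (hx M hM)
    · exact le_sInf (fun M hM => hM.2.2)
  set R := sInf 𝒩 with hRdef
  obtain ⟨hRn, hRt, hRl⟩ := hR
  by_cases hbot : R = ⊥
  · rw [hbot] at hRl
    exact le_bot_iff.mp hRl
  exfalso
  have hRfg : R.FG := by
    refine fg_of_nilp_quot hE hfg R n0 ?_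
    rw [lcs_quot, Subgroup.map_eq_bot_iff, QuotientGroup.ker_mk']
    exact hRl
  obtain ⟨φ₀, hφ₀⟩ := hLI R hRfg hbot
  -- the intersection of the kernels of all rational characters of `R`
  let I : Subgroup H :=
    { carrier := {x | ∃ h : x ∈ R, ∀ φ : Additive R →+ ℚ, φ (Additive.ofMul ⟨x, h⟩) = 0}
      one_mem' := ⟨R.one_mem, fun φ => φ.map_zero⟩
      mul_mem' := by
        rintro x y ⟨hx, hx'⟩ ⟨hy, hy'⟩
        refine ⟨R.mul_mem hx hy, fun φ => ?_⟩
        have := φ.map_add (Additive.ofMul ⟨x, hx⟩) (Additive.ofMul ⟨y, hy⟩)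
        rw [hx', hy', add_zero] at this
        exact this
      inv_mem' := by
        rintro x ⟨hx, hx'⟩
        refine ⟨R.inv_mem hx, fun φ => ?_⟩
        have := φ.map_neg (Additive.ofMul ⟨x, hx⟩)
        rw [hx', neg_zero] at this
        exact this }
  have hImem : ∀ x, x ∈ I ↔ ∃ h : x ∈ R, ∀ φ : Additive R →+ ℚ, φ (Additive.ofMul ⟨x, h⟩) = 0 :=
    fun x => Iff.rfl
  have hIn : I.Normal := by
    constructor
    rintro x ⟨hx, hx'⟩ g
    refine ⟨hRn.conj_mem x hx g, fun φ => ?_⟩
    have := hx' (act1 R g⁻¹ φ)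
    rw [act1_apply] at this
    rw [← this]
    congr 2
    apply Subtype.ext
    simp
  have hIt : ∀ x : H, ∀ m : ℕ, 0 < m → x ^ m ∈ I → x ∈ I := by
    intro x m hm ⟨hx, hx'⟩
    have hxR : x ∈ R := hRt x m hm hx
    refine ⟨hxR, fun φ => ?_⟩
    have h1 : φ (m • (Additive.ofMul ⟨x, hxR⟩)) = 0 := hx' φ
    rw [map_nsmul, smul_eq_zero] at h1
    rcases h1 with h1 | h1
    · exact absurd h1 hm.ne'
    · exact h1
  have hIc : ∃ c, (⊤ : Subgroup H).lowerCentralSeries c ≤ I := by
    refine ⟨f + n0, ?_⟩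
    have hle : (⊤ : Subgroup (H ⧸ I)).lowerCentralSeries n0 ≤
        Subgroup.upperCentralSeries (H ⧸ I) f := by
      rw [lcs_quot]
      rintro _ ⟨r, hr, rfl⟩
      rw [mem_ucs_iff]
      intro l hl
      obtain ⟨l', rfl⟩ : ∃ l' : List H, l'.map (QuotientGroup.mk' I) = l :=
        (List.map_surjective_iff.mpr (QuotientGroup.mk'_surjective I)) l
      rw [foldl_map, QuotientGroup.mk'_apply, QuotientGroup.eq_one_iff]
      have hrR : r ∈ R := hRl hr
      have h1 := foldl_coe R ⟨r, hrR⟩ l'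
      change l'.foldl cm r ∈ I
      rw [show l'.foldl cm r = ((l'.foldl (kc R) ⟨r, hrR⟩ : R) : H) from h1.symm, hImem]
      refine ⟨Subtype.property _, fun φ => ?_⟩
      exact hom_foldl R hf hE φ ⟨r, hrR⟩ l' (by rw [← hl, List.length_map])
    have h2 := ucs_top_of_lcs_le hle
    rw [← Subgroup.lowerCentralSeries_eq_bot_iff_upperCentralSeries_eq_top, lcs_quot,
      Subgroup.map_eq_bot_iff, QuotientGroup.ker_mk'] at h2
    exact h2
  have hI𝒩 : I ∈ 𝒩 := hclass I hIn hIt hIc
  have hRI : R ≤ I := sInf_le hI𝒩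
  apply hφ₀
  refine DFunLike.ext _ _ (fun r => ?_)
  obtain ⟨h, h'⟩ := hRI r.toMul.2
  exact h' φ₀

/-- passing from finitely generated subgroups to the whole group -/
theorem ucs_top_of_fg {G : Type} [Group G] (n : ℕ)
    (h : ∀ K : Subgroup G, K.FG → (⊤ : Subgroup K).lowerCentralSeries n = ⊥) :
    Subgroup.upperCentralSeries G n = ⊤ := by
  rw [eq_top_iff]
  intro x _
  rw [mem_ucs_iff]
  intro l hl
  set K := Subgroup.closure {y | y ∈ x :: l} with hK
  have hKfg : K.FG := (Subgroup.fg_iff K).mpr ⟨_, rfl, List.finite_toSet _⟩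
  have h1 := h K hKfg
  rw [Subgroup.lowerCentralSeries_eq_bot_iff_upperCentralSeries_eq_top] at h1
  have hxK : x ∈ K := Subgroup.subset_closure (List.mem_cons_self)
  have hlK : ∀ y ∈ l, y ∈ K := fun y hy => Subgroup.subset_closure (List.mem_cons_of_mem _ hy)
  have h2 : (⟨x, hxK⟩ : K) ∈ Subgroup.upperCentralSeries K n := by rw [h1]; trivial
  rw [mem_ucs_iff] at h2
  have h3 := h2 (l.attach.map (fun y => ⟨y.1, hlK y.1 y.2⟩)) (by simp [hl])
  have h4 := congrArg K.subtype h3
  rw [← foldl_map, List.map_map, map_one] at h4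
  have h5 : l.attach.map (K.subtype ∘ fun y => (⟨y.1, hlK y.1 y.2⟩ : K)) = l := by
    have : (K.subtype ∘ fun y : {y // y ∈ l} => (⟨y.1, hlK y.1 y.2⟩ : K)) = Subtype.val := by
      funext y; rfl
    rw [this, List.attach_map_subtype_val]
  rw [h5] at h4
  exact h4

end Pool.Agent.H77.EngGrp
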