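import Pool.Agent.H77.EngGrp.Uni

/-!
# The action of a group on the rational characters of a normal subgroup
-/

set_option autoImplicit false
set_option linter.unusedSectionVars false

namespace Pool.Agent.H77.EngGrp

open scoped commutatorElement

/-- the commutator `[a, x] = a⁻¹ x⁻¹ a x` -/
def cm {H : Type*} [Group H] (a x : H) : H := a⁻¹ * x⁻¹ * a * x

/-- `k`-Engel -/
def Eng (k : ℕ) (H : Type*) [Group H] : Prop :=
  ∀ x y : H, (fun z : H => z⁻¹ * y⁻¹ * z * y)^[k] x = 1

theorem mem_ucs_iff {H : Type*} [Group H] (n : ℕ) (a : H) :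
    a ∈ Subgroup.upperCentralSeries H n ↔ ∀ l : List H, l.length = n → l.foldl cm a = 1 := by
  induction n generalizing a with
  | zero =>
    constructor
    · intro h l hl
      rw [List.length_eq_zero_iff.mp hl]
      simpa using h
    · intro h
      simpa using h [] rfl
  | succ n ih =>
    constructor
    · intro h l hl
      match l, hl with
      | x :: l, hl =>
        rw [List.foldl_cons]
        refine (ih _).mp ?_ l (by simpa using hl)
        have h1 : a⁻¹ ∈ Subgroup.upperCentralSeries H (n + 1) := Subgroup.inv_mem _ h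
        have h2 := Subgroup.mem_upperCentralSeries_succ_iff.mp h1 x⁻¹
        rw [commutatorElement_def, inv_inv, inv_inv] at h2
        exact h2
    · intro h
      rw [Subgroup.mem_upperCentralSeries_succ_iff]
      intro y
      have h1 : cm a y⁻¹ ∈ Subgroup.upperCentralSeries H n := by
        rw [ih]
        intro l hl
        have := h (y⁻¹ :: l) (by simp [hl])
        rwa [List.foldl_cons] at this
      have h2 : ⁅a, y⁆ = (a * cm a y⁻¹ * a⁻¹)⁻¹ := by
        rw [commutatorElement_def, cm]; group
      rw [h2]
      exact Subgroup.inv_mem _ (Subgroup.Normal.conj_mem inferInstance _ h1 a)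

section

variable {H : Type} [Group H] (K : Subgroup H) [K.Normal]

/-- the commutator of an element of the normal subgroup `K` with an element of `H` -/
def kc (r : K) (x : H) : K := r⁻¹ * MulAut.conjNormal x⁻¹ r

theorem kc_coe (r : K) (x : H) : ((kc K r x : K) : H) = cm (r : H) x := by
  simp [kc, cm, mul_assoc]

/-- the action of `H` on the rational characters of `K` -/
def act1 (x : H) : (Additive K →+ ℚ) →ₗ[ℚ] (Additive K →+ ℚ) where
  toFun φ := φ.comp (MonoidHom.toAdditive (MulAut.conjNormal x⁻¹ : K ≃* K).toMonoidHom)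
  map_add' φ ψ := by ext r; rfl
  map_smul' c φ := by ext r; rfl

theorem end_ext {F G : (Additive K →+ ℚ) →ₗ[ℚ] (Additive K →+ ℚ)}
    (h : ∀ (φ : Additive K →+ ℚ) (r : K), F φ (Additive.ofMul r) = G φ (Additive.ofMul r)) :
    F = G :=
  LinearMap.ext (fun φ => DFunLike.ext _ _ (fun r => h φ r.toMul))

theorem act1_apply (x : H) (φ : Additive K →+ ℚ) (r : K) :
    act1 K x φ (Additive.ofMul r) = φ (Additive.ofMul (MulAut.conjNormal x⁻¹ r)) := rfl

/-- the action of `H` on the rational characters of `K` -/
def act : H →* Module.End ℚ (Additive K →+ ℚ) where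
  toFun := act1 K
  map_one' := by
    refine end_ext K (fun φ r => ?_)
    rw [act1_apply, inv_one, map_one]
    rfl
  map_mul' x y := by
    refine end_ext K (fun φ r => ?_)
    change act1 K (x * y) φ _ = act1 K x (act1 K y φ) _
    rw [act1_apply, act1_apply, act1_apply, mul_inv_rev, map_mul, MulAut.mul_apply]

theorem act_sub_one (x : H) (φ : Additive K →+ ℚ) (r : K) :
    (act K x - 1) φ (Additive.ofMul r) = φ (Additive.ofMul (kc K r x)) := by
  have : (act K x - 1) φ (Additive.ofMul r) =
      φ (Additive.ofMul (MulAut.conjNormal x⁻¹ r)) - φ (Additive.ofMul r) := rfl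
  rw [this, kc, ofMul_mul, map_add, ofMul_inv, map_neg]
  ring

theorem act_sub_one_pow (x : H) (n : ℕ) (φ : Additive K →+ ℚ) (r : K) :
    ((act K x - 1) ^ n) φ (Additive.ofMul r) =
      φ (Additive.ofMul ((fun s => kc K s x)^[n] r)) := by
  induction n generalizing r with
  | zero => rfl
  | succ n ih =>
    rw [pow_succ', Module.End.mul_apply, act_sub_one, ih, Function.iterate_succ_apply]

theorem act_list (l : List H) (φ : Additive K →+ ℚ) (r : K) :
    (l.map (fun x => act K x - 1)).prod φ (Additive.ofMul r) =
      φ (Additive.ofMul (l.foldl (kc K) r)) := by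
  induction l generalizing r with
  | nil => rfl
  | cons x l ih =>
    rw [List.map_cons, List.prod_cons, Module.End.mul_apply, act_sub_one, ih, List.foldl_cons]

theorem iterate_coe (r : K) (x : H) (n : ℕ) :
    (((fun s => kc K s x)^[n] r : K) : H) = (fun z : H => z⁻¹ * x⁻¹ * z * x)^[n] (r : H) := by
  induction n generalizing r with
  | zero => rfl
  | succ n ih =>
    rw [Function.iterate_succ_apply, ih, Function.iterate_succ_apply, kc_coe]
    rfl

theorem act_nil {N : ℕ} (hE : Eng (N + 1) H) (x : H) : (act K x - 1) ^ (N + 1) = 0 := by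
  refine end_ext K (fun φ r => ?_)
  rw [act_sub_one_pow]
  have : ((fun s => kc K s x)^[N + 1] r) = 1 := by
    apply Subtype.ext
    rw [iterate_coe]
    exact hE _ x
  rw [this]
  simp

theorem hom_foldl {N f : ℕ} (hf : NilBound N f) (hE : Eng (N + 1) H) (φ : Additive K →+ ℚ) (r : K)
    (l : List H) (hl : l.length = f) : φ (Additive.ofMul (l.foldl (kc K) r)) = 0 := by
  rw [← act_list, prod_sub_one hf (act_nil K hE) l hl]
  rfl

theorem foldl_coe (r : K) (l : List H) :
    ((l.foldl (kc K) r : K) : H) = l.foldl cm (r : H) := by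
  induction l generalizing r with
  | nil => rfl
  | cons x l ih => rw [List.foldl_cons, List.foldl_cons, ih, kc_coe]

end

/-- rational characters separate the points of a torsion-free abelian group -/
theorem sep {A : Type*} [AddCommGroup A] (htf : ∀ a : A, ∀ m : ℕ, 0 < m → m • a = 0 → a = 0)
    (a : A) (h : ∀ φ : A →+ ℚ, φ a = 0) : a = 0 := by
  by_contra ha
  have hinj : Function.Injective (zmultiplesHom A a) := by
    rw [injective_iff_map_eq_zero]
    intro n hn
    rw [zmultiplesHom_apply] at hn
    by_contra hn0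
    rcases Int.eq_nat_or_neg n with ⟨m, hm | hm⟩
    · refine ha (htf a m (Nat.pos_of_ne_zero (fun h0 => hn0 (by rw [hm, h0]; rfl))) ?_)
      rwa [hm, natCast_zsmul] at hn
    · refine ha (htf a m (Nat.pos_of_ne_zero (fun h0 => hn0 (by rw [hm, h0]; rfl))) ?_)
      rwa [hm, neg_smul, natCast_zsmul, neg_eq_zero] at hn
  obtain ⟨φ, hφ⟩ := Module.Baer.extension_property_addMonoidHom
    (Module.Baer.of_divisible ℚ) (zmultiplesHom A a) hinj (Int.castAddHom ℚ)
  have h1 := DFunLike.congr_fun hφ 1
  simp only [AddMonoidHom.comp_apply, zmultiplesHom_apply, one_smul] at h1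
  rw [h] at h1
  simp at h1

end Pool.Agent.H77.EngGrp
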