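import Pool.Agent.H77.EngGrp.Fin
import Pool.Agent.H75.Engel.Hull

/-!
# Hölder's theorem for right orders; local indicability of right-ordered Engel groups; main theorem
-/

set_option autoImplicit false
set_option linter.unusedSectionVars false

namespace Pool.Agent.H77.EngGrp

open scoped commutatorElement

/-- Hölder's theorem for a total right order -/
theorem holder {Q : Type*} [Group Q] [LinearOrder Q] (hr : ∀ x y b : Q, x ≤ y → x * b ≤ y * b)
    (harch : ∀ x : Q, 1 < x → ∀ y, ∃ n : ℕ, y ≤ x ^ n) : ∀ a b : Q, a * b = b * a := by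
  have hr' : ∀ x y b : Q, x < y → x * b < y * b := by
    intro x y b h
    refine lt_of_le_of_ne (hr _ _ _ h.le) (fun h2 => h.ne (mul_right_cancel h2))
  have hinv : ∀ x : Q, 1 < x → x⁻¹ < 1 := by
    intro x hx
    have := hr' 1 x x⁻¹ hx
    rwa [one_mul, mul_inv_cancel] at this
  have hinv' : ∀ x : Q, x < 1 → 1 < x⁻¹ := by
    intro x hx
    have := hr' x 1 x⁻¹ hx
    rwa [one_mul, mul_inv_cancel] at this
  have hc1 : ∀ x : Q, 1 < x → ∀ y : Q, 1 < y → 1 < y * x * y⁻¹ := by
    intro x hx y hy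
    by_contra hcon
    push Not at hcon
    have h1 : y * x ≤ y := by
      have := hr _ _ y hcon
      rwa [inv_mul_cancel_right, one_mul] at this
    have h2 : ∀ n : ℕ, y * x ^ n ≤ y := by
      intro n
      induction n with
      | zero => simp
      | succ n ih =>
        have := hr _ _ x ih
        rw [mul_assoc, ← pow_succ] at this
        exact this.trans h1
    obtain ⟨n, hn⟩ := harch x hx y
    have h3 := hr' 1 y (x ^ n) hy
    rw [one_mul] at h3
    exact absurd (lt_of_lt_of_le h3 (h2 n)) (not_lt.mpr hn)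
  have hc2 : ∀ x : Q, 1 < x → ∀ y : Q, 1 < y * x * y⁻¹ := by
    intro x hx y
    rcases lt_trichotomy y 1 with hy | hy | hy
    · by_contra hcon
      push Not at hcon
      rcases hcon.lt_or_eq with h | h
      · have h1 := hc1 _ (hinv' _ h) _ (hinv' _ hy)
        have h2 : y⁻¹ * (y * x * y⁻¹)⁻¹ * y⁻¹⁻¹ = x⁻¹ := by group
        rw [h2] at h1
        exact absurd h1 (not_lt.mpr (hinv x hx).le)
      · have : x = 1 := by
          have h2 : x = y⁻¹ * (y * x * y⁻¹) * y := by group
          rw [h2, h]; group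
        exact absurd hx (by rw [this]; exact lt_irrefl _)
    · rw [hy]; simpa using hx
    · exact hc1 x hx y hy
  have hl' : ∀ x y b : Q, x < y → b * x < b * y := by
    intro x y b h
    have h1 : 1 < y * x⁻¹ := by
      have := hr' _ _ x⁻¹ h
      rwa [mul_inv_cancel] at this
    have h2 := hr' _ _ (b * x) (hc2 _ h1 b)
    rw [one_mul] at h2
    have h3 : b * (y * x⁻¹) * b⁻¹ * (b * x) = b * y := by group
    rwa [h3] at h2
  have hl : ∀ x y b : Q, x ≤ y → b * x ≤ b * y := by
    intro x y b h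
    rcases h.lt_or_eq with h | h
    · exact (hl' _ _ _ h).le
    · rw [h]
  -- powers
  have hzpos : ∀ z : Q, 1 < z → ∀ n : ℕ, 1 < z ^ (n + 1) := by
    intro z hz n
    induction n with
    | zero => simpa using hz
    | succ n ih =>
      rw [pow_succ]
      have := hr' _ _ z ih
      rw [one_mul] at this
      exact hz.trans this
  have hmono : ∀ z : Q, 1 < z → ∀ m n : ℤ, m < n → z ^ m < z ^ n := by
    intro z hz m n hmn
    obtain ⟨j, hj⟩ := Int.eq_ofNat_of_zero_le (show 0 ≤ n - m - 1 by omega)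
    have h1 : n = ((j + 1 : ℕ) : ℤ) + m := by push_cast; omega
    rw [h1, zpow_add, zpow_natCast]
    have := hr' _ _ (z ^ m) (hzpos z hz j)
    rwa [one_mul] at this
  have hnear : ∀ z : Q, 1 < z → ∀ a : Q, ∃ m : ℤ, z ^ m ≤ a ∧ a < z ^ (m + 1) := by
    intro z hz a
    have hb : ∃ b : ℤ, ∀ m : ℤ, z ^ m ≤ a → m ≤ b := by
      obtain ⟨n, hn⟩ := harch z hz a
      refine ⟨n, fun m hm => ?_⟩
      by_contra hcon
      push Not at hcon
      have := hmono z hz _ _ hcon
      rw [zpow_natCast] at this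
      exact absurd (this.trans_le hm) (not_lt.mpr hn)
    have hne : ∃ m : ℤ, z ^ m ≤ a := by
      obtain ⟨n, hn⟩ := harch z hz a⁻¹
      refine ⟨-n, ?_⟩
      have h1 := hr _ _ a hn
      rw [inv_mul_cancel] at h1
      have h2 := hl _ _ (z ^ (-(n : ℤ))) h1
      rwa [mul_one, ← mul_assoc, ← zpow_natCast, ← zpow_add, neg_add_cancel, zpow_zero,
        one_mul] at h2
    obtain ⟨m, hm, hm'⟩ := Int.exists_greatest_of_bdd (P := fun m : ℤ => z ^ m ≤ a) hb hne
    refine ⟨m, hm, ?_⟩
    by_contra hcon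
    push Not at hcon
    have := hm' (m + 1) hcon
    omega
  have hmul : ∀ a b p q : Q, a < p → b < q → a * b < p * q := by
    intro a b p q h1 h2
    exact (hr' _ _ b h1).trans (hl' _ _ p h2)
  have hmulle : ∀ a b p q : Q, a ≤ p → b ≤ q → a * b ≤ p * q := by
    intro a b p q h1 h2
    exact (hr _ _ b h1).trans (hl _ _ p h2)
  by_cases hmin : ∃ z : Q, 1 < z ∧ ∀ w : Q, 1 < w → z ≤ w
  · obtain ⟨z, hz, hzmin⟩ := hmin
    have hall : ∀ a : Q, ∃ m : ℤ, a = z ^ m := by
      intro a
      obtain ⟨m, hm1, hm2⟩ := hnear z hz a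
      refine ⟨m, ?_⟩
      by_contra hne
      have h1 : z ^ m < a := lt_of_le_of_ne hm1 (Ne.symm hne)
      have h2 : 1 < a * (z ^ m)⁻¹ := by
        have := hr' _ _ (z ^ m)⁻¹ h1
        rwa [mul_inv_cancel] at this
      have h3 := hr _ _ (z ^ m) (hzmin _ h2)
      rw [inv_mul_cancel_right, ← zpow_one_add, add_comm] at h3
      exact absurd hm2 (not_lt.mpr h3)
    intro a b
    obtain ⟨m, rfl⟩ := hall a
    obtain ⟨n, rfl⟩ := hall b
    rw [← zpow_add, ← zpow_add, add_comm]
  · push Not at hmin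
    have key : ∀ a b : Q, ¬ (1 < (a * b) * (b * a)⁻¹) := by
      intro a b hc
      set c := (a * b) * (b * a)⁻¹ with hcdef
      obtain ⟨u, hu1, huc⟩ := hmin c hc
      have hw : ∃ w : Q, 1 < w ∧ w * w ≤ c := by
        by_cases h : u * u ≤ c
        · exact ⟨u, hu1, h⟩
        · push Not at h
          refine ⟨c * u⁻¹, ?_, ?_⟩
          · have := hr' _ _ u⁻¹ huc
            rwa [mul_inv_cancel] at this
          · have h1 : c * u⁻¹ < u := by
              have := hr' _ _ u⁻¹ h
              rwa [mul_inv_cancel_right] at this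
            have h2 := hl _ _ (c * u⁻¹) h1.le
            rwa [inv_mul_cancel_right] at h2
      obtain ⟨z, hz, hzc⟩ := hw
      obtain ⟨m, hm1, hm2⟩ := hnear z hz a
      obtain ⟨n, hn1, hn2⟩ := hnear z hz b
      have h1 : a * b < z ^ (m + 1) * z ^ (n + 1) := hmul _ _ _ _ hm2 hn2
      have h2 : z ^ n * z ^ m ≤ b * a := hmulle _ _ _ _ hn1 hm1
      have h3 : c * (z ^ n * z ^ m) ≤ a * b := by
        have := hl _ _ c h2
        rwa [hcdef, inv_mul_cancel_right] at this
      have h4 := lt_of_le_of_lt h3 h1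
      have h5 := hr' _ _ (z ^ n * z ^ m)⁻¹ h4
      rw [mul_inv_cancel_right] at h5
      have h6 : z ^ (m + 1) * z ^ (n + 1) * (z ^ n * z ^ m)⁻¹ = z * z := by
        rw [← zpow_add, ← zpow_add, ← zpow_neg, ← zpow_add,
          show m + 1 + (n + 1) + -(n + m) = 1 + 1 by ring, zpow_add, zpow_one]
      rw [h6] at h5
      exact absurd (h5.trans_le hzc) (lt_irrefl _)
    intro a b
    rcases lt_trichotomy ((a * b) * (b * a)⁻¹) 1 with h | h | h
    · exfalso
      refine key b a ?_
      have := hinv' _ h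
      rwa [mul_inv_rev, inv_inv] at this
    · exact mul_inv_eq_one.mp h
    · exact absurd h (key a b)

section li

variable {K : Type*} [Group K] [LinearOrder K]

/-- convexity -/
def Cvx (C : Subgroup K) : Prop := ∀ x ∈ C, ∀ y ∈ C, ∀ z, x ≤ z → z ≤ y → z ∈ C

theorem exists_max_cvx [Nontrivial K] (hfg : (⊤ : Subgroup K).FG) :
    ∃ C : Subgroup K, Cvx C ∧ C < ⊤ ∧ ∀ F : Subgroup K, Cvx F → C ≤ F → F < ⊤ → F = C := by
  obtain ⟨T, hT⟩ := hfg
  obtain ⟨C, -, ⟨hC1, hC2⟩, hmax⟩ := zorn_le_nonempty₀ {C : Subgroup K | Cvx C ∧ C < ⊤}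
    (by
      intro 𝒞 h𝒞 hchain A₀ hA₀
      refine ⟨sSup 𝒞, ⟨?_, ?_⟩, fun z hz => le_sSup hz⟩
      · intro x hx y hy z hxz hzy
        rw [Subgroup.mem_sSup_of_directedOn ⟨A₀, hA₀⟩ hchain.directedOn] at hx hy ⊢
        obtain ⟨B, hB, hxB⟩ := hx
        obtain ⟨B', hB', hyB'⟩ := hy
        rcases hchain.total hB hB' with h | h
        · exact ⟨B', hB', (h𝒞 hB').1 x (h hxB) y hyB' z hxz hzy⟩
        · exact ⟨B, hB, (h𝒞 hB).1 x hxB y (h hyB') z hxz hzy⟩
      · rw [lt_top_iff_ne_top]
        intro htop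
        have h1 : ∀ T : Finset K, ∃ B ∈ 𝒞, (T : Set K) ⊆ B := by
          classical
          intro T
          induction T using Finset.induction_on with
          | empty => exact ⟨A₀, hA₀, by simp⟩
          | insert t T _ ih =>
            obtain ⟨B, hB, hTB⟩ := ih
            have ht : t ∈ sSup 𝒞 := by rw [htop]; trivial
            rw [Subgroup.mem_sSup_of_directedOn ⟨A₀, hA₀⟩ hchain.directedOn] at ht
            obtain ⟨B', hB', htB'⟩ := ht
            rw [Finset.coe_insert]
            rcases hchain.total hB hB' with h | h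
            · exact ⟨B', hB', Set.insert_subset htB' (hTB.trans h)⟩
            · exact ⟨B, hB, Set.insert_subset (h htB') hTB⟩
        obtain ⟨B, hB, hTB⟩ := h1 T
        have : B = ⊤ := by
          rw [eq_top_iff, ← hT, Subgroup.closure_le]; exact hTB
        exact (h𝒞 hB).2.ne this)
    ⊥ ⟨by
      intro x hx y hy z hxz hzy
      rw [Subgroup.mem_bot] at hx hy ⊢
      rw [hx] at hxz; rw [hy] at hzy
      exact le_antisymm hzy hxz, bot_lt_top⟩
  exact ⟨C, hC1, hC2, fun F hF hCF hFT => le_antisymm (hmax ⟨hF, hFT⟩ hCF) hCF⟩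

theorem exists_char [Nontrivial K] (hfg : (⊤ : Subgroup K).FG)
    (hr : ∀ x y b : K, x ≤ y → x * b ≤ y * b) {k : ℕ} (hE : Eng k K) :
    ∃ φ : Additive K →+ ℚ, φ ≠ 0 := by
  obtain ⟨C, hC, hCtop, hmax⟩ := exists_max_cvx hfg
  obtain ⟨hn, harch⟩ := Pool.Agent.H75.Engel.jump_conrad hr (k := k) hE C ⊤ hC
    (fun _ _ _ _ _ _ _ => Subgroup.mem_top _) hCtop hmax
  have hCn : C.Normal := ⟨fun c hc d => hn c hc d (Subgroup.mem_top d)⟩
  have hinv : ∀ x : K, x ≤ 1 → 1 ≤ x⁻¹ := by
    intro x hx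
    have := hr x 1 x⁻¹ hx
    rwa [one_mul, mul_inv_cancel] at this
  have hmul1 : ∀ x y : K, 1 ≤ x → 1 ≤ y → 1 ≤ x * y := by
    intro x y hx hy
    have := hr 1 x y hx
    rw [one_mul] at this
    exact hy.trans this
  -- the order on the quotient
  let leQ : K ⧸ C → K ⧸ C → Prop := fun x y =>
    ∃ s : K, 1 ≤ s ∧ QuotientGroup.mk' C s = y * x⁻¹
  have hrefl : ∀ x, leQ x x := fun x => ⟨1, le_rfl, by rw [map_one, mul_inv_cancel]⟩
  have htrans : ∀ x y z, leQ x y → leQ y z → leQ x z := by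
    rintro x y z ⟨s, hs, hs'⟩ ⟨t, ht, ht'⟩
    refine ⟨t * s, hmul1 _ _ ht hs, ?_⟩
    rw [map_mul, hs', ht']; group
  have hanti : ∀ x y, leQ x y → leQ y x → x = y := by
    rintro x y ⟨s, hs, hs'⟩ ⟨t, ht, ht'⟩
    have h1 : s * t ∈ C := by
      rw [← QuotientGroup.eq_one_iff, ← QuotientGroup.mk'_apply, map_mul, hs', ht']; group
    have h2 : t ∈ C := by
      have := hr 1 s t hs
      rw [one_mul] at this
      exact hC 1 C.one_mem _ h1 t ht this
    have h3 : s ∈ C := by
      have := C.mul_mem h1 (C.inv_mem h2)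
      rwa [mul_inv_cancel_right] at this
    have h4 : QuotientGroup.mk' C s = 1 := (QuotientGroup.eq_one_iff s).mpr h3
    rw [h4] at hs'
    exact (mul_inv_eq_one.mp hs'.symm).symm
  have htot : ∀ x y, leQ x y ∨ leQ y x := by
    intro x y
    obtain ⟨r, hr'⟩ := QuotientGroup.mk'_surjective C (y * x⁻¹)
    rcases le_total 1 r with h | h
    · exact Or.inl ⟨r, h, hr'⟩
    · exact Or.inr ⟨r⁻¹, hinv r h, by rw [map_inv, hr']; group⟩
  let ordQ : LinearOrder (K ⧸ C) :=
    { le := leQ
      le_refl := hrefl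
      le_trans := htrans
      le_antisymm := hanti
      le_total := htot
      toDecidableLE := Classical.decRel _ }
  have hcomm : ∀ a b : K ⧸ C, a * b = b * a := by
    refine @holder (K ⧸ C) _ ordQ ?_ ?_
    · rintro x y b ⟨s, hs, hs'⟩
      exact ⟨s, hs, by rw [hs']; group⟩
    · intro x hx y
      obtain ⟨⟨s, hs, hs'⟩, hne⟩ : leQ 1 x ∧ ¬ leQ x 1 := hx
      rw [inv_one, mul_one] at hs'
      have hsC : s ∉ C := by
        intro hsC
        apply hne
        have : x = 1 := by
          rw [← hs']; exact (QuotientGroup.eq_one_iff s).mpr hsC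
        rw [this]; exact hrefl 1
      have hs1 : 1 < s := lt_of_le_of_ne hs (fun h => hsC (h ▸ C.one_mem))
      obtain ⟨t, ht⟩ := QuotientGroup.mk'_surjective C y
      obtain ⟨n, hn⟩ := harch s (Subgroup.mem_top _) hsC hs1 t (Subgroup.mem_top _)
      refine ⟨n, ?_⟩
      refine ⟨s ^ n * t⁻¹, ?_, ?_⟩
      · have := hr _ _ t⁻¹ hn
        rwa [mul_inv_cancel] at this
      · rw [map_mul, map_pow, hs', map_inv, ht]
  -- roots
  have hroot1 : ∀ x : K, 1 ≤ x → ∀ m : ℕ, 0 < m → x ^ m ∈ C → x ∈ C := by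
    intro x hx m hm hxm
    have h1 : ∀ j : ℕ, 1 ≤ x ^ j := by
      intro j
      induction j with
      | zero => simp
      | succ j ih => rw [pow_succ]; exact hmul1 _ _ ih hx
    obtain ⟨j, rfl⟩ := Nat.exists_eq_succ_of_ne_zero hm.ne'
    refine hC 1 C.one_mem _ hxm x hx ?_
    have := hr _ _ x (h1 j)
    rwa [one_mul, ← pow_succ] at this
  have hroot : ∀ x : K, ∀ m : ℕ, 0 < m → x ^ m ∈ C → x ∈ C := by
    intro x m hm hxm
    rcases le_total 1 x with h | h
    · exact hroot1 x h m hm hxm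
    · have := hroot1 x⁻¹ (hinv x h) m hm (by rw [inv_pow]; exact C.inv_mem hxm)
      rwa [inv_mem_iff] at this
  obtain ⟨x, hx⟩ : ∃ x : K, x ∉ C := by
    by_contra hcon
    push Not at hcon
    exact hCtop.ne (by rw [eq_top_iff]; exact fun x _ => hcon x)
  let cg : CommGroup (K ⧸ C) := { (inferInstance : Group (K ⧸ C)) with mul_comm := hcomm }
  have h1 : ∃ φ : Additive (K ⧸ C) →+ ℚ, φ (Additive.ofMul (QuotientGroup.mk' C x)) ≠ 0 := by
    by_contra hcon
    push Not at hcon
    have h2 := sep (A := Additive (K ⧸ C)) (by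
      intro a m hm h
      obtain ⟨y, hy⟩ := QuotientGroup.mk'_surjective C a.toMul
      have h3 : (a.toMul) ^ m = 1 := h
      rw [← hy, ← map_pow, QuotientGroup.mk'_apply, QuotientGroup.eq_one_iff] at h3
      have h4 := hroot y m hm h3
      have h5 : a.toMul = 1 := by
        rw [← hy]; exact (QuotientGroup.eq_one_iff y).mpr h4
      exact h5) (Additive.ofMul (QuotientGroup.mk' C x)) hcon
    apply hx
    rw [← QuotientGroup.eq_one_iff]
    exact h2
  obtain ⟨φ, hφ⟩ := h1
  refine ⟨φ.comp (MonoidHom.toAdditive (QuotientGroup.mk' C)), fun h => hφ ?_⟩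
  exact DFunLike.congr_fun h (Additive.ofMul x)

end li

/-- The main reduction: bounds for nil Lie subspaces imply the theorem on right-orderable Engel
groups. -/
theorem main (hP : ∀ N : ℕ, ∃ f : ℕ, NilBound N f) :
    ∀ k : ℕ, ∃ c : ℕ, ∀ (G : Type) [Group G],
      (∃ r : G → G → Prop,
        (∀ x y : G, r x y ∨ r y x) ∧
        (∀ x y : G, r x y → r y x → x = y) ∧
        (∀ x y z : G, r x y → r y z → r x z) ∧
        (∀ x y b : G, r x y → r (x * b) (y * b))) →
      (∀ x y : G, (fun z : G => z⁻¹ * y⁻¹ * z * y)^[k] x = 1) →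
      Subgroup.upperCentralSeries G c = ⊤ := by
  intro k
  cases k with
  | zero =>
    refine ⟨0, fun G _ _ hE => ?_⟩
    rw [eq_top_iff]
    intro x _
    rw [Subgroup.upperCentralSeries_zero, Subgroup.mem_bot]
    exact hE x 1
  | succ N =>
    obtain ⟨f, hf⟩ := hP N
    refine ⟨2 * f + 1, fun G _ hord hE => ?_⟩
    obtain ⟨r, htot, hanti, htrans, hmul⟩ := hord
    have hE' : Eng (N + 1) G := hE
    refine ucs_top_of_fg _ (fun K hK => ?_)
    refine lcs_bot_of_LI hf K ?_ (hE'.sub K) ?_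
    · rw [← Group.fg_def, Group.fg_iff_subgroup_fg]; exact hK
    · intro L hL hLne
      let ordL : LinearOrder L :=
        { le := fun x y => r ((x : K) : G) ((y : K) : G)
          le_refl := fun x => (htot _ _).elim id id
          le_trans := fun x y z h1 h2 => htrans _ _ _ h1 h2
          le_antisymm := fun x y h1 h2 => Subtype.ext (Subtype.ext (hanti _ _ h1 h2))
          le_total := fun x y => htot _ _
          toDecidableLE := Classical.decRel _ }
      have : Nontrivial L := (Subgroup.nontrivial_iff_ne_bot L).mpr hLne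
      refine exists_char (k := N + 1) ?_ ?_ ((hE'.sub K).sub L)
      · rw [← Group.fg_def, Group.fg_iff_subgroup_fg]; exact hL
      · intro x y b h
        exact hmul _ _ _ h

end Pool.Agent.H77.EngGrp
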