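import Mathlib

/-!
# Unipotent group representations over ℚ: the Lie algebra spanned by linear coefficients of
polynomial curves
-/

set_option autoImplicit false
set_option linter.unusedSectionVars false

namespace Pool.Agent.H77.EngGrp

open Polynomial

section curves

variable {R : Type*} [Ring R] [Algebra ℚ R]

/-- evaluation of a polynomial with noncommuting coefficients at a natural number -/
noncomputable def ev (n : ℕ) : R[X] →+* R :=
  Polynomial.eval₂RingHom' (RingHom.id R) (n : R) (fun a => (Nat.cast_commute n a).symm)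

theorem ev_C (n : ℕ) (a : R) : ev n (C a) = a := by
  change Polynomial.eval₂ (RingHom.id R) (n : R) (C a) = a
  simp

theorem ev_X (n : ℕ) : ev n (X : R[X]) = (n : R) := by
  change Polynomial.eval₂ (RingHom.id R) (n : R) X = (n : R)
  simp

theorem ev_eq_sum (n : ℕ) (p : R[X]) (d : ℕ) (hd : p.natDegree < d) :
    ev n p = ∑ i : Fin d, ((n : ℚ) ^ (i : ℕ)) • p.coeff i := by
  change Polynomial.eval₂ (RingHom.id R) (n : R) p = _
  rw [Polynomial.eval₂_eq_sum_range' _ hd, Finset.sum_range]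
  refine Finset.sum_congr rfl (fun i _ => ?_)
  rw [RingHom.id_apply, ← Nat.cast_pow, ← Nat.cast_pow, Nat.cast_smul_eq_nsmul, nsmul_eq_mul]
  exact (Nat.cast_commute _ _).symm

theorem coeff_mem (W : Submodule ℚ R) (p : R[X]) (h : ∀ n : ℕ, ev n p ∈ W) (j : ℕ) :
    p.coeff j ∈ W := by
  set d := max (p.natDegree + 1) (j + 1) with hd
  have hd1 : p.natDegree < d := lt_of_lt_of_le (Nat.lt_succ_self _) (le_max_left _ _)
  have hd2 : j < d := lt_of_lt_of_le (Nat.lt_succ_self _) (le_max_right _ _)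
  let v : Fin d → ℚ := fun n => ((n : ℕ) : ℚ)
  have hv : Function.Injective v := by
    intro a b hab
    have : ((a : ℕ) : ℚ) = ((b : ℕ) : ℚ) := hab
    exact Fin.ext (by exact_mod_cast this)
  have hdet : (Matrix.vandermonde v).det ≠ 0 := Matrix.det_vandermonde_ne_zero_iff.mpr hv
  have hinv : (Matrix.vandermonde v)⁻¹ * (Matrix.vandermonde v) = 1 :=
    Matrix.nonsing_inv_mul _ (isUnit_iff_ne_zero.mpr hdet)
  have key : p.coeff j = ∑ n : Fin d, ((Matrix.vandermonde v)⁻¹ ⟨j, hd2⟩ n) • ev (n : ℕ) p := by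
    have : ∀ n : Fin d, ((Matrix.vandermonde v)⁻¹ ⟨j, hd2⟩ n) • ev (n : ℕ) p =
        ∑ i : Fin d, ((Matrix.vandermonde v)⁻¹ ⟨j, hd2⟩ n * Matrix.vandermonde v n i) •
          p.coeff i := by
      intro n
      rw [ev_eq_sum n p d hd1, Finset.smul_sum]
      refine Finset.sum_congr rfl (fun i _ => ?_)
      rw [smul_smul, Matrix.vandermonde_apply]
    rw [Finset.sum_congr rfl (fun n _ => this n), Finset.sum_comm]
    have h2 : ∀ i : Fin d, ∑ n : Fin d,
        ((Matrix.vandermonde v)⁻¹ ⟨j, hd2⟩ n * Matrix.vandermonde v n i) • p.coeff i =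
        (if (⟨j, hd2⟩ : Fin d) = i then p.coeff i else 0) := by
      intro i
      rw [← Finset.sum_smul, ← Matrix.mul_apply, hinv, Matrix.one_apply]
      split_ifs <;> simp
    rw [Finset.sum_congr rfl (fun i _ => h2 i)]
    simp
  rw [key]
  exact W.sum_mem (fun n _ => W.smul_mem _ (h n))

theorem eq_zero_of_ev (p : R[X]) (h : ∀ n : ℕ, ev n p = 0) : p = 0 := by
  ext j
  have := coeff_mem (⊥ : Submodule ℚ R) p (fun n => by rw [h n]; exact Submodule.zero_mem _) j
  simpa using this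

theorem ev_zero_eq (p : R[X]) : ev 0 p = p.coeff 0 := by
  rw [ev_eq_sum 0 p (p.natDegree + 1) (Nat.lt_succ_self _), Fin.sum_univ_succ]
  simp

variable {Γ : Type*} [Group Γ] (ρ : Γ →* R)

/-- a polynomial curve in `ρ(Γ)` through `1` -/
def IsCurve (p : R[X]) : Prop := p.coeff 0 = 1 ∧ ∀ n : ℕ, ∃ x : Γ, ev n p = ρ x

theorem IsCurve.one : IsCurve ρ 1 := ⟨by simp, fun n => ⟨1, by simp⟩⟩

variable {ρ}

theorem IsCurve.mul {p q : R[X]} (hp : IsCurve ρ p) (hq : IsCurve ρ q) : IsCurve ρ (p * q) := by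
  refine ⟨by rw [Polynomial.mul_coeff_zero, hp.1, hq.1, one_mul], fun n => ?_⟩
  obtain ⟨x, hx⟩ := hp.2 n
  obtain ⟨y, hy⟩ := hq.2 n
  exact ⟨x * y, by rw [map_mul, hx, hy, map_mul]⟩

theorem IsCurve.coeff_one_mul {p q : R[X]} (hp : IsCurve ρ p) (hq : IsCurve ρ q) :
    (p * q).coeff 1 = p.coeff 1 + q.coeff 1 := by
  rw [Polynomial.mul_coeff_one, hp.1, hq.1, one_mul, mul_one, add_comm]

theorem IsCurve.conj {p : R[X]} (hp : IsCurve ρ p) (y : Γ) :
    IsCurve ρ (C (ρ y) * p * C (ρ y⁻¹)) := by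
  refine ⟨?_, fun n => ?_⟩
  · rw [Polynomial.coeff_mul_C, Polynomial.coeff_C_mul, hp.1, mul_one, ← map_mul, mul_inv_cancel,
      map_one]
  · obtain ⟨x, hx⟩ := hp.2 n
    exact ⟨y * x * y⁻¹, by rw [map_mul, map_mul, ev_C, ev_C, hx, map_mul, map_mul]⟩

variable {N : ℕ} (hρ : ∀ x : Γ, (ρ x - 1) ^ (N + 1) = 0)

include hρ

theorem IsCurve.sub_pow {p : R[X]} (hp : IsCurve ρ p) : (p - 1) ^ (N + 1) = 0 := by
  apply eq_zero_of_ev
  intro n
  obtain ⟨x, hx⟩ := hp.2 n
  rw [map_pow, map_sub, map_one, hx, hρ]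

theorem IsCurve.exists_inv {p : R[X]} (hp : IsCurve ρ p) :
    ∃ q, IsCurve ρ q ∧ p * q = 1 ∧ q * p = 1 ∧ q.coeff 1 = - p.coeff 1 ∧
      ∀ n : ℕ, ∀ x : Γ, ev n p = ρ x → ev n q = ρ x⁻¹ := by
  have hnil : (1 - p) ^ (N + 1) = 0 := by
    have h := IsCurve.sub_pow hρ hp
    rw [← neg_sub, neg_pow, h, mul_zero]
  set q : R[X] := ∑ i ∈ Finset.range (N + 1), (1 - p) ^ i with hq
  have h1 : p * q = 1 := by
    have := mul_neg_geom_sum (1 - p) (N + 1)
    rw [hnil, sub_zero] at this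
    rw [← this]; congr 1; abel
  have h2 : q * p = 1 := by
    have := geom_sum_mul_neg (1 - p) (N + 1)
    rw [hnil, sub_zero] at this
    rw [← this]; congr 1; abel
  have hev : ∀ n : ℕ, ∀ x : Γ, ev n p = ρ x → ev n q = ρ x⁻¹ := by
    intro n x hx
    have h3 : ev n q * ρ x = 1 := by rw [← hx, ← map_mul, h2, map_one]
    calc ev n q = ev n q * (ρ x * ρ x⁻¹) := by
          rw [← map_mul, mul_inv_cancel, map_one, mul_one]
      _ = ρ x⁻¹ := by rw [← mul_assoc, h3, one_mul]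
  have hq0 : q.coeff 0 = 1 := by
    have := congrArg (fun r : R[X] => r.coeff 0) h2
    simp only [Polynomial.mul_coeff_zero, hp.1, mul_one, Polynomial.coeff_one_zero] at this
    exact this
  refine ⟨q, ⟨hq0, fun n => ?_⟩, h1, h2, ?_, hev⟩
  · obtain ⟨x, hx⟩ := hp.2 n
    exact ⟨x⁻¹, hev n x hx⟩
  · have := congrArg (fun r : R[X] => r.coeff 1) h1
    simp only [Polynomial.mul_coeff_one, hp.1, hq0, one_mul, mul_one] at this
    rw [Polynomial.coeff_one] at this
    simp only [one_ne_zero, if_false] at this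
    exact eq_neg_of_add_eq_zero_left this

theorem IsCurve.coeff_pow {p : R[X]} (hp : IsCurve ρ p) : (p.coeff 1) ^ (N + 1) = 0 := by
  have h := IsCurve.sub_pow hρ hp
  have h1 : p - 1 = (divX p) * X := by
    have := divX_mul_X_add p
    rw [hp.1, map_one] at this
    exact (eq_sub_of_add_eq this).symm
  rw [h1, (Polynomial.commute_X (divX p)).symm.mul_pow] at h
  have h2 : (divX p) ^ (N + 1) = 0 := by
    ext j
    have := congrArg (fun r : R[X] => r.coeff (j + (N + 1))) h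
    simpa [Polynomial.coeff_mul_X_pow] using this
  have h3 := congrArg (Polynomial.constantCoeff) h2
  rw [map_pow, map_zero] at h3
  simpa [Polynomial.coeff_divX] using h3

/-- the additive group of linear coefficients of curves is closed under integer multiples etc. -/
theorem IsCurve.exists_zsmul {p : R[X]} (hp : IsCurve ρ p) (a : ℤ) :
    ∃ q, IsCurve ρ q ∧ q.coeff 1 = a • p.coeff 1 := by
  have hnat : ∀ m : ℕ, ∃ q, IsCurve ρ q ∧ q.coeff 1 = (m : ℤ) • p.coeff 1 := by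
    intro m
    induction m with
    | zero => exact ⟨1, IsCurve.one ρ, by rw [Polynomial.coeff_one]; simp⟩
    | succ m ih =>
      obtain ⟨q, hq, hq1⟩ := ih
      exact ⟨q * p, hq.mul hp, by rw [hq.coeff_one_mul hp, hq1]; push_cast; rw [add_smul, one_smul]⟩
  rcases Int.eq_nat_or_neg a with ⟨m, hm | hm⟩
  · rw [hm]; exact hnat m
  · obtain ⟨q, hq, hq1⟩ := hnat m
    obtain ⟨r, hr, -, -, hr1, -⟩ := hq.exists_inv hρ
    exact ⟨r, hr, by rw [hr1, hq1, hm, neg_smul]⟩

/-- The `ℚ`-space of the linear coefficients of polynomial curves in `ρ(Γ)`. -/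
def lieV : Submodule ℚ R where
  carrier := {z | ∃ m : ℕ, 0 < m ∧ ∃ p, IsCurve ρ p ∧ p.coeff 1 = (m : ℚ) • z}
  zero_mem' := ⟨1, one_pos, 1, IsCurve.one ρ, by rw [Polynomial.coeff_one]; simp⟩
  add_mem' := by
    rintro y z ⟨m, hm, p, hp, hpm⟩ ⟨n, hn, q, hq, hqn⟩
    obtain ⟨p', hp', hp1⟩ := hp.exists_zsmul hρ n
    obtain ⟨q', hq', hq1⟩ := hq.exists_zsmul hρ m
    refine ⟨m * n, Nat.mul_pos hm hn, p' * q', hp'.mul hq', ?_⟩
    rw [hp'.coeff_one_mul hq', hp1, hq1, hpm, hqn, ← Int.cast_smul_eq_zsmul ℚ,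
      ← Int.cast_smul_eq_zsmul ℚ, smul_smul, smul_smul]
    push_cast
    rw [smul_add, mul_comm (m : ℚ) n]
  smul_mem' := by
    rintro c z ⟨m, hm, p, hp, hpm⟩
    obtain ⟨q, hq, hq1⟩ := hp.exists_zsmul hρ c.num
    refine ⟨m * c.den, Nat.mul_pos hm c.den_pos, q, hq, ?_⟩
    rw [hq1, hpm, ← Int.cast_smul_eq_zsmul ℚ, smul_smul, smul_smul]
    congr 1
    push_cast
    have h1 : (c.num : ℚ) = c * c.den := (Rat.mul_den_eq_num c).symm
    rw [h1]; ring

theorem mem_lieV_of_curve {p : R[X]} (hp : IsCurve ρ p) : p.coeff 1 ∈ lieV hρ :=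
  ⟨1, one_pos, p, hp, by simp⟩

theorem lieV_pow {z : R} (hz : z ∈ lieV hρ) : z ^ (N + 1) = 0 := by
  obtain ⟨m, hm, p, hp, hpm⟩ := hz
  have h := hp.coeff_pow hρ
  rw [hpm, _root_.smul_pow] at h
  have hm' : ((m : ℚ) ^ (N + 1)) ≠ 0 := pow_ne_zero _ (by exact_mod_cast hm.ne')
  exact (smul_eq_zero_iff_right hm').mp h

theorem lieV_conj {z : R} (hz : z ∈ lieV hρ) (y : Γ) : ρ y * z * ρ y⁻¹ ∈ lieV hρ := by
  obtain ⟨m, hm, p, hp, hpm⟩ := hz
  refine ⟨m, hm, _, hp.conj y, ?_⟩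
  rw [Polynomial.coeff_mul_C, Polynomial.coeff_C_mul, hpm, mul_smul_comm, smul_mul_assoc]

theorem lieV_comm {z w : R} (hz : z ∈ lieV hρ) (hw : w ∈ lieV hρ) :
    z * w - w * z ∈ lieV hρ := by
  obtain ⟨m, hm, p, hp, hpm⟩ := hz
  obtain ⟨q, hq, hpq, hqp, hq1, hev⟩ := hp.exists_inv hρ
  have h1 : ∀ n : ℕ, ev n (p * C w * q) ∈ lieV hρ := by
    intro n
    obtain ⟨x, hx⟩ := hp.2 n
    rw [map_mul, map_mul, ev_C, hx, hev n x hx]
    exact lieV_conj hρ hw x
  have h2 := coeff_mem (lieV hρ) _ h1 1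
  rw [Polynomial.mul_coeff_one, Polynomial.coeff_mul_C, Polynomial.coeff_mul_C, hp.1, hq.1, hq1,
    hpm, one_mul, mul_one, mul_neg, smul_mul_assoc, mul_smul_comm, neg_add_eq_sub,
    ← smul_sub] at h2
  have hm' : (m : ℚ) ≠ 0 := by exact_mod_cast hm.ne'
  have := (lieV hρ).smul_mem ((m : ℚ)⁻¹) h2
  rwa [smul_smul, inv_mul_cancel₀ hm', one_smul] at this

omit hρ in
theorem ev_map (n : ℕ) (b : ℚ[X]) :
    ev n (b.map (algebraMap ℚ R)) = algebraMap ℚ R (b.eval (n : ℚ)) := by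
  change Polynomial.eval₂ (RingHom.id R) (n : R) _ = _
  rw [Polynomial.eval₂_map, RingHom.id_comp, Polynomial.eval₂_at_natCast]

/-- the binomial polynomial `X choose j` -/
noncomputable def bin (j : ℕ) : ℚ[X] := C ((j.factorial : ℚ)⁻¹) * descPochhammer ℚ j

omit hρ in
theorem bin_eval (j n : ℕ) : (bin j).eval (n : ℚ) = (n.choose j : ℚ) := by
  unfold bin
  rw [Polynomial.eval_mul, Polynomial.eval_C, descPochhammer_eval_eq_descFactorial,
    Nat.descFactorial_eq_factorial_mul_choose]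
  push_cast
  rw [← mul_assoc, inv_mul_cancel₀ (by exact_mod_cast j.factorial_ne_zero), one_mul]

/-- the polynomial whose value at `y = ρ x - 1` is the logarithm of `ρ x` -/
noncomputable def lg (N : ℕ) : ℚ[X] := ∑ j ∈ Finset.range (N + 2), C ((bin j).coeff 1) * X ^ j

omit hρ in
theorem lg_eq (N : ℕ) : ∃ h : ℚ[X], lg N = X + X ^ 2 * h := by
  refine ⟨∑ j ∈ Finset.range N, C ((bin (j + 2)).coeff 1) * X ^ j, ?_⟩
  unfold lg
  rw [Finset.sum_range_succ', Finset.sum_range_succ']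
  have h0 : (bin 0).coeff 1 = 0 := by
    unfold bin
    rw [descPochhammer_zero, mul_one, Polynomial.coeff_C]
    simp
  have h1 : (bin (0 + 1)).coeff 1 = 1 := by
    unfold bin
    rw [zero_add, descPochhammer_one]
    simp
  rw [h0, h1, Finset.mul_sum]
  simp only [map_zero, zero_mul, add_zero, zero_add, pow_one, map_one, one_mul]
  rw [add_comm]
  congr 1
  refine Finset.sum_congr rfl (fun j _ => ?_)
  ring

theorem exists_curve (x : Γ) : ∃ p : R[X], IsCurve ρ p ∧ p.coeff 1 = aeval (ρ x - 1) (lg N) := by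
  set y := ρ x - 1 with hy
  set p : R[X] := ∑ j ∈ Finset.range (N + 2), ((bin j).map (algebraMap ℚ R)) * C (y ^ j) with hp
  have hev : ∀ n : ℕ, ev n p = ρ (x ^ n) := by
    intro n
    have h1 : ρ (x ^ n) = (y + 1) ^ n := by rw [map_pow, hy, sub_add_cancel]
    rw [h1, (Commute.one_right y).add_pow, hp, map_sum]
    have h2 : ∀ j, ev n (((bin j).map (algebraMap ℚ R)) * C (y ^ j)) =
        y ^ j * 1 ^ (n - j) * (n.choose j : R) := by
      intro j
      rw [map_mul, ev_map, ev_C, bin_eval, one_pow, mul_one, map_natCast]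
      exact Nat.cast_commute _ _
    rw [Finset.sum_congr rfl (fun j _ => h2 j)]
    have hz : ∀ j, N + 1 ≤ j → y ^ j * 1 ^ (n - j) * (n.choose j : R) = 0 := by
      intro j hj
      rw [pow_eq_zero_of_le hj (hρ x), zero_mul, zero_mul]
    have hz' : ∀ j, n + 1 ≤ j → y ^ j * 1 ^ (n - j) * (n.choose j : R) = 0 := by
      intro j hj
      rw [Nat.choose_eq_zero_of_lt hj, Nat.cast_zero, mul_zero]
    have hA : ∑ j ∈ Finset.range (N + 2), y ^ j * 1 ^ (n - j) * (n.choose j : R) =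
        ∑ j ∈ Finset.range (N + 2 + (n + 1)), y ^ j * 1 ^ (n - j) * (n.choose j : R) := by
      apply Finset.sum_subset (Finset.range_mono (by omega))
      intro j _ hj
      exact hz j (by rw [Finset.mem_range] at hj; omega)
    have hB : ∑ j ∈ Finset.range (n + 1), y ^ j * 1 ^ (n - j) * (n.choose j : R) =
        ∑ j ∈ Finset.range (N + 2 + (n + 1)), y ^ j * 1 ^ (n - j) * (n.choose j : R) := by
      apply Finset.sum_subset (Finset.range_mono (by omega))
      intro j _ hj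
      exact hz' j (by rw [Finset.mem_range] at hj; omega)
    rw [hA, hB]
  refine ⟨p, ⟨?_, fun n => ⟨x ^ n, hev n⟩⟩, ?_⟩
  · rw [← ev_zero_eq, hev 0, pow_zero, map_one]
  · rw [hp, Polynomial.finsetSum_coeff, lg, map_sum]
    refine Finset.sum_congr rfl (fun j _ => ?_)
    rw [Polynomial.coeff_mul_C, Polynomial.coeff_map, map_mul, Polynomial.aeval_C, map_pow,
      Polynomial.aeval_X]

omit hρ in
theorem inv_poly (h : ℚ[X]) (M : ℕ) :
    ∃ q : ℚ[X], q.coeff 0 = 0 ∧ X ^ (M + 1) ∣ X - q.comp (X + X ^ 2 * h) := by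
  induction M with
  | zero => exact ⟨0, by simp, by simp⟩
  | succ M ih =>
    obtain ⟨q, hq0, r, hr⟩ := ih
    refine ⟨q + C (r.coeff 0) * X ^ (M + 1), by simp [hq0], ?_⟩
    have h1 : X - (q + C (r.coeff 0) * X ^ (M + 1)).comp (X + X ^ 2 * h) =
        X ^ (M + 1) * (r - C (r.coeff 0) * (1 + X * h) ^ (M + 1)) := by
      rw [Polynomial.add_comp, Polynomial.mul_comp, Polynomial.C_comp, Polynomial.pow_comp,
        Polynomial.X_comp, ← sub_sub, hr]
      have : X + X ^ 2 * h = X * (1 + X * h) := by ring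
      rw [this, mul_pow]
      ring
    rw [h1, pow_succ X (M + 1)]
    refine mul_dvd_mul_left _ ?_
    rw [Polynomial.X_dvd_iff]
    simp [Polynomial.coeff_zero_eq_eval_zero]

/-- the filtration by powers of a subspace -/
def W (V : Submodule ℚ R) (n : ℕ) : Submodule ℚ R := ⨆ i : ℕ, V ^ (n + i)

omit hρ in
theorem W_mul (V : Submodule ℚ R) (a b : ℕ) : W V a * W V b ≤ W V (a + b) := by
  unfold W
  rw [Submodule.iSup_mul]
  refine iSup_le (fun i => ?_)
  rw [Submodule.mul_iSup]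
  refine iSup_le (fun j => ?_)
  rw [← pow_add, show a + i + (b + j) = a + b + (i + j) by ring]
  exact le_iSup (fun i : ℕ => V ^ (a + b + i)) (i + j)

omit hρ in
theorem aeval_mem_W (V : Submodule ℚ R) {v : R} (hv : v ∈ V) {q : ℚ[X]} (hq : q.coeff 0 = 0) :
    aeval v q ∈ W V 1 := by
  rw [Polynomial.aeval_eq_sum_range]
  refine Submodule.sum_mem _ (fun i _ => ?_)
  rcases Nat.eq_zero_or_pos i with rfl | hi
  · rw [hq, zero_smul]; exact Submodule.zero_mem _
  · refine Submodule.smul_mem _ _ ?_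
    obtain ⟨j, rfl⟩ := Nat.exists_eq_add_of_le hi
    exact (le_iSup (fun j : ℕ => V ^ (1 + j)) j) (Submodule.pow_mem_pow V hv (1 + j))

theorem sub_one_mem_W (x : Γ) : ρ x - 1 ∈ W (lieV hρ) 1 := by
  obtain ⟨p, hp, hp1⟩ := exists_curve hρ x
  have hv := mem_lieV_of_curve hρ hp
  obtain ⟨h, hh⟩ := lg_eq N
  obtain ⟨q, hq0, r, hr⟩ := inv_poly h N
  have h1 : ρ x - 1 = aeval (p.coeff 1) q := by
    have h2 := congrArg (aeval (ρ x - 1)) hr
    rw [map_sub, map_mul, map_pow, Polynomial.aeval_X, hρ, zero_mul, sub_eq_zero, ← hh,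
      Polynomial.aeval_comp, ← hp1] at h2
    exact h2
  rw [h1]
  exact aeval_mem_W _ hv hq0

end curves

/-- **Nil bound**: in a `ℚ`-algebra, a Lie subspace `L` of elements of nil index at most `N + 1`
has all products of `f` of its elements zero. -/
def NilBound (N f : ℕ) : Prop :=
  ∀ (R : Type) [Ring R] [Algebra ℚ R] (L : Submodule ℚ R),
    (∀ x ∈ L, ∀ y ∈ L, x * y - y * x ∈ L) → (∀ z ∈ L, z ^ (N + 1) = 0) →
    ∀ l : List R, (∀ x ∈ l, x ∈ L) → l.length = f → l.prod = 0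

section main

variable {R : Type} [Ring R] [Algebra ℚ R] {Γ : Type*} [Group Γ] {ρ : Γ →* R} {N f : ℕ}

theorem W_eq_bot (hf : NilBound N f) (hρ : ∀ x : Γ, (ρ x - 1) ^ (N + 1) = 0) :
    W (lieV hρ) f = ⊥ := by
  have h1 : (lieV hρ) ^ f = ⊥ := by
    rw [Submodule.pow_eq_span_pow_set, Submodule.span_eq_bot]
    intro a ha
    obtain ⟨g, rfl⟩ := Set.mem_pow.mp ha
    apply hf R (lieV hρ) (fun x hx y hy => lieV_comm hρ hx hy) (fun z hz => lieV_pow hρ hz)
    · intro b hb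
      obtain ⟨i, rfl⟩ := List.mem_ofFn.mp hb
      exact (g i).2
    · simp
  unfold W
  rw [iSup_eq_bot]
  intro i
  rw [pow_add, h1, Submodule.bot_mul]

theorem prod_sub_one_mem (hρ : ∀ x : Γ, (ρ x - 1) ^ (N + 1) = 0) (l : List Γ) :
    (l.map (fun x => ρ x - 1)).prod ∈ W (lieV hρ) l.length := by
  induction l with
  | nil =>
    simp only [List.map_nil, List.prod_nil, List.length_nil]
    refine (le_iSup (fun i : ℕ => (lieV hρ) ^ (0 + i)) 0) ?_
    simp [Submodule.one_le.mp le_rfl]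
  | cons x l ih =>
    rw [List.map_cons, List.prod_cons, List.length_cons, add_comm]
    exact W_mul _ 1 l.length (Submodule.mul_mem_mul (sub_one_mem_W hρ x) ih)

theorem prod_sub_one (hf : NilBound N f) (hρ : ∀ x : Γ, (ρ x - 1) ^ (N + 1) = 0) (l : List Γ)
    (hl : l.length = f) : (l.map (fun x => ρ x - 1)).prod = 0 := by
  have h := prod_sub_one_mem hρ l
  rw [hl, W_eq_bot hf hρ] at h
  simpa using h

end main

end Pool.Agent.H77.EngGrp
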